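import Mathlib
import Pool.Agent.Y467.QP.Closed

set_option autoImplicit false

/-!
# If there are fewer than `2 ^ 𝔠` Q-points, every Q-point is generated by `𝔡` sets

In particular this holds for the Q-point of a model with exactly one Q-point up to isomorphism.
-/

namespace Pool.Agent.Results.MP_04bc06_lc.FewQPoints

open Set

/-- A Q-point: a nonprincipal ultrafilter on `ℕ` such that for every partition of `ℕ` into finite
sets some member of the ultrafilter meets every piece in at most one point. -/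
def IsQPoint (U : Ultrafilter ℕ) : Prop :=
  (∀ n : ℕ, ({n} : Set ℕ) ∉ U) ∧ ∀ P : Set (Set ℕ), Setoid.IsPartition P → (∀ p ∈ P, p.Finite) →
    ∃ X ∈ U, ∀ p ∈ P, (X ∩ p).Subsingleton

/-- `U` and `V` are isomorphic: `V` is the image of `U` under a permutation of `ℕ`. -/
def Iso (U V : Ultrafilter ℕ) : Prop := ∃ σ : Equiv.Perm ℕ, U.map σ = V

/-- There are, up to isomorphism, fewer than `2 ^ 𝔠` Q-points: every Q-point is isomorphic to a
member of some set of fewer than `2 ^ 𝔠` ultrafilters. -/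
def FewerThanMaximal : Prop :=
  ∃ L : Set (Ultrafilter ℕ), Cardinal.mk L < 2 ^ Cardinal.continuum ∧
    ∀ q, IsQPoint q → ∃ r ∈ L, Iso r q

/-- The dominating number `𝔡`: the least cardinality of a family `D` of functions such that every
function is eventually dominated by a member of `D`. -/
noncomputable def dNum : Cardinal.{0} :=
  sInf {c : Cardinal.{0} | ∃ D : Set (ℕ → ℕ), Cardinal.mk D = c ∧
    ∀ f : ℕ → ℕ, ∃ d ∈ D, ∃ N, ∀ n, N ≤ n → f n ≤ d n}

/-- **Theorem.** Suppose that there are fewer than `2 ^ 𝔠` Q-points up to isomorphism (for instance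
exactly one). Then (1) every Q-point `q` has a base of at most `𝔡` sets. (2) More precisely, whenever
a family of members of `q` contains, for every partition of `ℕ` into finite sets, a set meeting
every piece in at most one point, then this family and one further member of `q` generate `q` modulo
finite sets: every member of `q` contains, except for finitely many points, the intersection of that
further member with finitely many sets of the family. (3) If all Q-points are isomorphic, no further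
member is needed: `q` is generated, modulo finite sets, by every family of its members which
contains such a set for every partition of `ℕ` into finite sets. -/
theorem result (hfew : FewerThanMaximal) (q : Ultrafilter ℕ) (hq : IsQPoint q) :
    (∃ 𝓑 : Set (Set ℕ), Cardinal.mk 𝓑 ≤ dNum ∧ (∀ B ∈ 𝓑, B ∈ q) ∧ ∀ X ∈ q, ∃ B ∈ 𝓑, B ⊆ X) ∧
    (∀ 𝓢 : Set (Set ℕ), (∀ S ∈ 𝓢, S ∈ q) →
      (∀ P : Set (Set ℕ), Setoid.IsPartition P → (∀ p ∈ P, p.Finite) →
        ∃ S ∈ 𝓢, ∀ p ∈ P, (S ∩ p).Subsingleton) →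
      ∃ B ∈ q, ∀ X ∈ q, ∃ F : Set (Set ℕ), F ⊆ 𝓢 ∧ F.Finite ∧ ((B ∩ ⋂₀ F) \ X).Finite) ∧
    ((∀ p : Ultrafilter ℕ, IsQPoint p → Iso q p) →
      ∀ 𝓢 : Set (Set ℕ), (∀ S ∈ 𝓢, S ∈ q) →
        (∀ P : Set (Set ℕ), Setoid.IsPartition P → (∀ p ∈ P, p.Finite) →
          ∃ S ∈ 𝓢, ∀ p ∈ P, (S ∩ p).Subsingleton) →
        ∀ X ∈ q, ∃ F : Set (Set ℕ), F ⊆ 𝓢 ∧ F.Finite ∧ ((⋂₀ F) \ X).Finite) := by
  classical
  -- fewer than `2 ^ 𝔠` Q-points
  have hcard : ¬ (2 : Cardinal.{0}) ^ Cardinal.continuum ≤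
      Cardinal.mk {U : Ultrafilter ℕ // IsQPoint U} := by
    intro hle
    obtain ⟨L, hL, hall⟩ := hfew
    have hex : ∀ U : {U : Ultrafilter ℕ // IsQPoint U}, ∃ x : L × Equiv.Perm ℕ,
        x.1.1.map x.2 = U.1 := by
      intro U
      obtain ⟨r, hr, σ, hσ⟩ := hall U.1 U.2
      exact ⟨(⟨r, hr⟩, σ), hσ⟩
    choose x hx using hex
    have hinj : Function.Injective (fun U : {U : Ultrafilter ℕ // IsQPoint U} =>
        ((x U).1, ((x U).2 : ℕ → ℕ))) := by
      intro U V h
      have h' : ((x U).1, ((x U).2 : ℕ → ℕ)) = ((x V).1, ((x V).2 : ℕ → ℕ)) := h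
      have h1 : (x U).1 = (x V).1 := (Prod.mk.inj h').1
      have h2 : ((x U).2 : ℕ → ℕ) = (x V).2 := (Prod.mk.inj h').2
      apply Subtype.ext
      rw [← hx U, ← hx V, h1, h2]
    have h1 := Cardinal.mk_le_of_injective hinj
    have h2 : Cardinal.mk (L × (ℕ → ℕ)) = Cardinal.mk L * Cardinal.continuum := by simp
    rw [h2] at h1
    have h3 : Cardinal.mk L * Cardinal.continuum < 2 ^ Cardinal.continuum :=
      Cardinal.mul_lt_of_lt (Cardinal.aleph0_le_continuum.trans (Cardinal.cantor _).le) hL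
        (Cardinal.cantor _)
    exact absurd (hle.trans h1) (not_le.mpr h3)
  -- selectors have finitely many ultrafilters above them
  have hfin : ∀ {I : Type} (S : I → Set ℕ), (∀ i, S i ∈ q) →
      (∀ p : Ultrafilter ℕ, (∀ i, S i ∈ p) → IsQPoint p) →
      {p : Ultrafilter ℕ | ∀ i, S i ∈ p}.Finite := by
    intro I S _ hSQ
    by_contra hinf
    obtain ⟨F, hF1, hF2⟩ := Pool.Agent.Y467.QP.many_above S hinf
    apply hcard
    have h1 : Function.Injective (fun J : Set (Set ℕ) =>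
        (⟨F J, hSQ _ (hF2 J)⟩ : {U : Ultrafilter ℕ // IsQPoint U})) := fun J J' h =>
      hF1 (congrArg Subtype.val h)
    have h2 := Cardinal.mk_le_of_injective h1
    have h3 : Cardinal.mk (Set (Set ℕ)) = 2 ^ Cardinal.continuum := by
      rw [Cardinal.mk_set, Cardinal.mk_set, Cardinal.mk_nat, Cardinal.two_power_aleph0]
    rw [h3] at h2
    exact h2
  -- cofinite sets
  have hcof : ∀ n : ℕ, ({n} : Set ℕ)ᶜ ∈ q := fun n =>
    Ultrafilter.compl_mem_iff_notMem.mpr (hq.1 n)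
  refine ⟨?_, ?_, ?_⟩
  · obtain ⟨D, hDc, hD⟩ := Pool.Agent.H562R3.dNum_mem
    have hqt : Pool.Agent.Y467.QP.QPt q := hq
    have hex : ∀ i : D × Bool, ∃ X ∈ q, InjOn (Pool.Agent.H562R3.g i.2 i.1.1) X := fun i =>
      hqt.sel _ (Pool.Agent.H562R3.g_fin i.2 i.1.1)
    choose X hX hXi using hex
    let S : (D × Bool) ⊕ ℕ → Set ℕ := Sum.elim X (fun n => {n}ᶜ)
    have hSq : ∀ i, S i ∈ q := by
      rintro (i | n)
      · exact hX i
      · exact hcof n
    obtain ⟨B, hB, hBX⟩ := Pool.Agent.Y467.QP.gen_of_finite S q hSq (hfin S hSq (by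
      intro p hp
      show Pool.Agent.Y467.QP.QPt p
      apply Pool.Agent.Y467.QP.qPt_of_sel hD
      · intro n hn
        exact (Ultrafilter.compl_mem_iff_notMem.mp (hp (Sum.inr n))) hn
      · intro d hd b
        exact ⟨X (⟨d, hd⟩, b), hp (Sum.inl (⟨d, hd⟩, b)), hXi (⟨d, hd⟩, b)⟩))
    refine ⟨Set.range (fun s : Finset ((D × Bool) ⊕ ℕ) => B ∩ ⋂ i ∈ s, S i), ?_, ?_, ?_⟩
    · refine Cardinal.mk_range_le.trans ?_
      have hd0 : Cardinal.aleph0 ≤ Cardinal.mk D := by
        rw [hDc]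
        exact Pool.Agent.H562R3.aleph0_lt_dNum.le
      have h5 : Cardinal.mk ((D × Bool) ⊕ ℕ) = Cardinal.mk D := by
        rw [Cardinal.mk_sum, Cardinal.mk_prod]
        simp only [Cardinal.lift_id, Cardinal.mk_nat, Cardinal.mk_bool]
        have h6 : Cardinal.mk D * 2 = Cardinal.mk D := Cardinal.mul_eq_left hd0
          (by exact_mod_cast (Cardinal.natCast_lt_aleph0 (n := 2)).le.trans hd0) (by simp)
        rw [h6]
        exact Cardinal.add_eq_left hd0 hd0
      have : Infinite ((D × Bool) ⊕ ℕ) := inferInstance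
      rw [Cardinal.mk_finset_of_infinite, h5, hDc]
      exact le_rfl
    · rintro _ ⟨s, rfl⟩
      apply Filter.inter_mem hB
      exact (Filter.biInter_finset_mem s).mpr (fun i _ => hSq i)
    · intro Y hY
      obtain ⟨s, hs⟩ := hBX Y hY
      exact ⟨_, ⟨s, rfl⟩, hs⟩
  · intro 𝓢 h𝓢 hsel
    let S : 𝓢 ⊕ ℕ → Set ℕ := Sum.elim (fun s => s.1) (fun n => {n}ᶜ)
    have hSq : ∀ i, S i ∈ q := by
      rintro (i | n)
      · exact h𝓢 _ i.2
      · exact hcof n
    obtain ⟨B, hB, hBX⟩ := Pool.Agent.Y467.QP.gen_of_finite S q hSq (hfin S hSq (by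
      intro p hp
      refine ⟨?_, ?_⟩
      · intro n hn
        exact (Ultrafilter.compl_mem_iff_notMem.mp (hp (Sum.inr n))) hn
      · intro P hP hPf
        obtain ⟨T, hT, hTP⟩ := hsel P hP hPf
        exact ⟨T, hp (Sum.inl ⟨T, hT⟩), hTP⟩))
    refine ⟨B, hB, fun Y hY => ?_⟩
    obtain ⟨s, hs⟩ := hBX Y hY
    refine ⟨{T | ∃ i : 𝓢, Sum.inl i ∈ s ∧ i.1 = T}, ?_, ?_, ?_⟩
    · rintro T ⟨i, _, rfl⟩
      exact i.2
    · refine (s.finite_toSet.image (Sum.elim (fun i : 𝓢 => i.1) (fun _ => ∅))).subset ?_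
      rintro T ⟨i, hi, rfl⟩
      exact ⟨Sum.inl i, hi, rfl⟩
    · refine (s.finite_toSet.image (Sum.elim (fun _ : 𝓢 => 0) (fun n => n))).subset ?_
      rintro x ⟨⟨hx1, hx2⟩, hx3⟩
      by_contra hcon
      apply hx3
      apply hs
      refine ⟨hx1, ?_⟩
      simp only [Set.mem_iInter]
      rintro (i | n) hi
      · exact hx2 i.1 ⟨i, hi, rfl⟩
      · intro hxn
        rw [Set.mem_singleton_iff] at hxn
        apply hcon
        exact ⟨Sum.inr n, hi, hxn.symm⟩
  · intro huniq 𝓢 h𝓢 hsel Y hY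
    let S : 𝓢 ⊕ ℕ → Set ℕ := Sum.elim (fun s => s.1) (fun n => {n}ᶜ)
    have hBX := Pool.Agent.Y467.QP.gen_of_unique S q (by
      intro p hp
      have hpQ : IsQPoint p := by
        refine ⟨?_, ?_⟩
        · intro n hn
          exact (Ultrafilter.compl_mem_iff_notMem.mp (hp (Sum.inr n))) hn
        · intro P hP hPf
          obtain ⟨T, hT, hTP⟩ := hsel P hP hPf
          exact ⟨T, hp (Sum.inl ⟨T, hT⟩), hTP⟩
      apply Pool.Agent.Y467.QP.eq_of_iso hq.1 (huniq p hpQ)
      intro f hf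
      obtain ⟨T, hT, hTP⟩ := hsel (Setoid.ker f).classes (Setoid.isPartition_classes _) (by
        rintro c ⟨y, rfl⟩
        refine (hf (f y)).subset ?_
        intro x hx
        exact hx)
      refine ⟨T, h𝓢 T hT, hp (Sum.inl ⟨T, hT⟩), ?_⟩
      intro x hx y hy hxy
      exact hTP {z | (Setoid.ker f) z y} ⟨y, rfl⟩ ⟨hx, hxy⟩ ⟨hy, rfl⟩)
    obtain ⟨s, hs⟩ := hBX Y hY
    refine ⟨{T | ∃ i : 𝓢, Sum.inl i ∈ s ∧ i.1 = T}, ?_, ?_, ?_⟩
    · rintro T ⟨i, _, rfl⟩
      exact i.2
    · refine (s.finite_toSet.image (Sum.elim (fun i : 𝓢 => i.1) (fun _ => ∅))).subset ?_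
      rintro T ⟨i, hi, rfl⟩
      exact ⟨Sum.inl i, hi, rfl⟩
    · refine (s.finite_toSet.image (Sum.elim (fun _ : 𝓢 => 0) (fun n => n))).subset ?_
      rintro x ⟨hx2, hx3⟩
      by_contra hcon
      apply hx3
      apply hs
      simp only [Set.mem_iInter]
      rintro (i | n) hi
      · exact hx2 i.1 ⟨i, hi, rfl⟩
      · intro hxn
        rw [Set.mem_singleton_iff] at hxn
        apply hcon
        exact ⟨Sum.inr n, hi, hxn.symm⟩

end Pool.Agent.Results.MP_04bc06_lc.FewQPoints
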