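import Mathlib
import Pool.Agent.Y467.QP.Base

set_option autoImplicit false

/-!
# If there are only finitely many Q-points, all of them are weak P-points

All ultrafilters are ultrafilters on `ℕ`. In any model with exactly one Q-point up to isomorphism
this Q-point is not a limit point of fewer than `𝔟` other nonprincipal ultrafilters; in
particular it is a weak P-point and not a sum `U₀-∑ Uₙ` of nonprincipal ultrafilters.
-/

namespace Pool.Agent.Results.MP_04bc06_lc.WeakPPoints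

open Set

/-- `U` is nonprincipal. -/
def Nonprincipal (U : Ultrafilter ℕ) : Prop := ∀ n : ℕ, ({n} : Set ℕ) ∉ U

/-- A Q-point: a nonprincipal ultrafilter such that for every partition of `ℕ` into finite sets some
member of the ultrafilter meets every piece in at most one point. -/
def IsQPoint (U : Ultrafilter ℕ) : Prop :=
  Nonprincipal U ∧ ∀ P : Set (Set ℕ), Setoid.IsPartition P → (∀ p ∈ P, p.Finite) →
    ∃ X ∈ U, ∀ p ∈ P, (X ∩ p).Subsingleton

/-- `U` and `V` are isomorphic: `V` is the image of `U` under a permutation of `ℕ`. -/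
def Iso (U V : Ultrafilter ℕ) : Prop := ∃ σ : Equiv.Perm ℕ, U.map σ = V

/-- `q` is a limit point of the set `S` of ultrafilters in `βℕ`: every member of `q` belongs to
some element of `S`. -/
def LimitOf (q : Ultrafilter ℕ) (S : Set (Ultrafilter ℕ)) : Prop :=
  ∀ X ∈ q, ∃ p ∈ S, X ∈ p

/-- There are only finitely many Q-points up to isomorphism: every Q-point is isomorphic to a
member of some finite list of Q-points. -/
def FinitelyManyQPoints : Prop :=
  ∃ L : Set (Ultrafilter ℕ), L.Finite ∧ (∀ r ∈ L, IsQPoint r) ∧ ∀ q, IsQPoint q → ∃ r ∈ L, Iso r q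

/-- The bounding number `𝔟`: the least cardinality of a family of functions `ℕ → ℕ` which is not
bounded by a single function modulo finite sets. -/
noncomputable def bNum : Cardinal.{0} :=
  sInf {c : Cardinal.{0} | ∃ B : Set (ℕ → ℕ), Cardinal.mk B = c ∧
    ¬ ∃ h : ℕ → ℕ, ∀ f ∈ B, ∃ N, ∀ n, N ≤ n → f n ≤ h n}

/-- The sum `W-∑ Uₙ`, an ultrafilter on `ℕ × ℕ`: the sets `A` such that `A_n ∈ Uₙ` for `W`-almost
all `n`. -/
def IsSum (W : Ultrafilter ℕ) (U : ℕ → Ultrafilter ℕ) (T : Ultrafilter (ℕ × ℕ)) : Prop :=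
  ∀ A : Set (ℕ × ℕ), A ∈ T ↔ {n | {m | (n, m) ∈ A} ∈ U n} ∈ W

theorem bdd_of_lt {S : Set (Ultrafilter ℕ)} (hS : Cardinal.mk S < bNum) :
    Pool.Agent.Y467.QP.Bdd S := by
  intro F
  by_contra hcon
  have h1 : bNum ≤ Cardinal.mk (Set.range F) := by
    apply csInf_le'
    refine ⟨_, rfl, ?_⟩
    rintro ⟨h, hh⟩
    exact hcon ⟨h, fun s => hh (F s) ⟨s, rfl⟩⟩
  exact absurd (h1.trans Cardinal.mk_range_le) (not_le.mpr hS)

theorem aleph0_lt_bNum : Cardinal.aleph0 < bNum := by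
  have hne : ({c : Cardinal.{0} | ∃ B : Set (ℕ → ℕ), Cardinal.mk B = c ∧
      ¬ ∃ h : ℕ → ℕ, ∀ f ∈ B, ∃ N, ∀ n, N ≤ n → f n ≤ h n}).Nonempty := by
    refine ⟨Cardinal.mk (Set.univ : Set (ℕ → ℕ)), Set.univ, rfl, ?_⟩
    rintro ⟨h, hh⟩
    obtain ⟨N, hN⟩ := hh (fun n => h n + 1) trivial
    have := hN N le_rfl
    omega
  obtain ⟨B, hB, hunb⟩ := csInf_mem hne
  change Cardinal.mk B = bNum at hB
  rw [← hB]
  by_contra hcon
  push Not at hcon
  apply hunb
  have hc : B.Countable := Cardinal.le_aleph0_iff_set_countable.mp hcon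
  rcases B.eq_empty_or_nonempty with rfl | hBne
  · exact ⟨fun _ => 0, fun f hf => absurd hf (Set.notMem_empty f)⟩
  obtain ⟨e, he⟩ := hc.exists_eq_range hBne
  refine ⟨fun n => ∑ i ∈ Finset.range (n + 1), e i n, ?_⟩
  rw [he]
  rintro _ ⟨i, rfl⟩
  refine ⟨i, fun n hn => ?_⟩
  exact Finset.single_le_sum (f := fun j => e j n) (fun _ _ => Nat.zero_le _)
    (Finset.mem_range.mpr (by omega))

/-- **Theorem.** (1) Let `S` be a set of fewer than `𝔟` nonprincipal ultrafilters and `q ∉ S` a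
Q-point which is a limit point of `S`. Then `q` is a limit point of the set of all members of `S`
which are Q-points not isomorphic to `q`, and these members of `S` are not covered by finitely many
isomorphism classes.
(2) If there are only finitely many Q-points up to isomorphism, no Q-point is a limit point of fewer
than `𝔟` other nonprincipal ultrafilters; `𝔟` is uncountable, so all Q-points are weak P-points.
(3) In this case no sum `W-∑ Uₙ` of nonprincipal ultrafilters (transported from `ℕ × ℕ` by any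
bijection) is a Q-point.
(4) `ℵ₀ < 𝔟`. -/
theorem result :
    (∀ q : Ultrafilter ℕ, IsQPoint q → ∀ S : Set (Ultrafilter ℕ), (∀ p ∈ S, Nonprincipal p) →
      q ∉ S → Cardinal.mk S < bNum → LimitOf q S →
        LimitOf q {p ∈ S | IsQPoint p ∧ ¬ Iso q p} ∧
        ∀ L : Set (Ultrafilter ℕ), L.Finite →
          ∃ p ∈ S, IsQPoint p ∧ ¬ Iso q p ∧ ∀ r ∈ L, ¬ Iso r p) ∧
    (FinitelyManyQPoints →
      ∀ q : Ultrafilter ℕ, IsQPoint q → ∀ S : Set (Ultrafilter ℕ), (∀ p ∈ S, Nonprincipal p) →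
        q ∉ S → Cardinal.mk S < bNum → ¬ LimitOf q S) ∧
    (FinitelyManyQPoints →
      ∀ (W : Ultrafilter ℕ) (U : ℕ → Ultrafilter ℕ) (T : Ultrafilter (ℕ × ℕ)),
        Nonprincipal W → (∀ n, Nonprincipal (U n)) → IsSum W U T →
          ∀ e : ℕ × ℕ ≃ ℕ, ¬ IsQPoint (T.map e)) ∧
    Cardinal.aleph0 < bNum := by
  classical
  have iso_symm : ∀ {U V : Ultrafilter ℕ}, Iso U V → Iso V U := by
    rintro U V ⟨σ, rfl⟩
    refine ⟨σ.symm, ?_⟩
    ext s
    show σ ⁻¹' (σ.symm ⁻¹' s) ∈ U ↔ s ∈ U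
    rw [← Set.preimage_comp]
    simp
  have iso_trans : ∀ {U V R : Ultrafilter ℕ}, Iso U V → Iso V R → Iso U R := by
    rintro U V R ⟨σ, rfl⟩ ⟨τ, rfl⟩
    exact ⟨σ.trans τ, rfl⟩
  have h1 : ∀ q : Ultrafilter ℕ, IsQPoint q → ∀ S : Set (Ultrafilter ℕ),
      (∀ p ∈ S, Nonprincipal p) → q ∉ S → Cardinal.mk S < bNum → LimitOf q S →
        LimitOf q {p ∈ S | IsQPoint p ∧ ¬ Iso q p} ∧
        ∀ L : Set (Ultrafilter ℕ), L.Finite →
          ∃ p ∈ S, IsQPoint p ∧ ¬ Iso q p ∧ ∀ r ∈ L, ¬ Iso r p := by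
    intro q hq S hnp hqS hS hlim
    have hB := bdd_of_lt hS
    obtain ⟨X, hX, hXS⟩ := Pool.Agent.Y467.QP.near hq hB hnp hqS
    have hL1 : LimitOf q {p ∈ S | IsQPoint p ∧ ¬ Iso q p} := by
      intro Y hY
      obtain ⟨p, hp, hYp⟩ := hlim (Y ∩ X) (Filter.inter_mem hY hX)
      have h2 := hXS p hp (Filter.mem_of_superset hYp Set.inter_subset_right)
      exact ⟨p, ⟨hp, h2.1, h2.2⟩, Filter.mem_of_superset hYp Set.inter_subset_left⟩
    refine ⟨hL1, fun L hL => ?_⟩
    have hex : ∀ r : Ultrafilter ℕ, ∃ Y ∈ q, IsQPoint r → ¬ Iso q r → ∀ p ∈ S, Iso r p → Y ∉ p := by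
      intro r
      by_cases h2 : IsQPoint r ∧ ¬ Iso q r
      · obtain ⟨Y, hY, hYS⟩ := Pool.Agent.Y467.QP.near_class hq h2.1 h2.2 hB
        exact ⟨Y, hY, fun _ _ => hYS⟩
      · exact ⟨Set.univ, Filter.univ_mem, fun h3 h4 => absurd ⟨h3, h4⟩ h2⟩
    choose Y hY hYS using hex
    have hmem : (⋂ r ∈ L, Y r) ∈ q := by
      rw [← Ultrafilter.mem_coe, Filter.biInter_mem hL]
      exact fun r _ => hY r
    obtain ⟨p, ⟨hp, hpQ, hpq⟩, hYp⟩ := hL1 _ hmem
    refine ⟨p, hp, hpQ, hpq, fun r hr hrp => ?_⟩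
    have hrQ : IsQPoint r := by
      obtain ⟨σ, hσ⟩ := iso_symm hrp
      refine ⟨?_, ?_⟩
      · rw [← hσ]
        exact Pool.Agent.Y467.QP.np_map hpQ.1 σ
      · intro P hP hfin
        obtain ⟨Z, hZ, hZP⟩ := hpQ.2 ((fun t => σ ⁻¹' t) '' P) (by
          refine ⟨?_, ?_⟩
          · rintro ⟨t, ht, ht2⟩
            have ht3 : t = ∅ := by
              have := congrArg (fun u => σ '' u) ht2
              simpa [Set.image_preimage_eq _ σ.surjective] using this
            rw [ht3] at ht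
            exact hP.1 ht
          · intro x
            obtain ⟨t, ⟨ht1, ht2⟩, ht3⟩ := hP.2 (σ x)
            refine ⟨σ ⁻¹' t, ⟨⟨t, ht1, rfl⟩, ht2⟩, ?_⟩
            rintro _ ⟨⟨t', ht', rfl⟩, hx⟩
            rw [ht3 t' ⟨ht', hx⟩]) (by
          rintro _ ⟨t, ht, rfl⟩
          exact (hfin t ht).preimage σ.injective.injOn)
        refine ⟨σ '' Z, ?_, ?_⟩
        · rw [← hσ]
          exact Filter.image_mem_map hZ
        · rintro t ht _ ⟨⟨x, hx, rfl⟩, hx2⟩ _ ⟨⟨y, hy, rfl⟩, hy2⟩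
          have := hZP _ ⟨t, ht, rfl⟩ ⟨hx, hx2⟩ ⟨hy, hy2⟩
          rw [this]
    have hqr : ¬ Iso q r := fun h => hpq (iso_trans h hrp)
    refine hYS r hrQ hqr p hp hrp (Filter.mem_of_superset hYp ?_)
    exact Set.biInter_subset_of_mem hr
  have h2 : FinitelyManyQPoints →
      ∀ q : Ultrafilter ℕ, IsQPoint q → ∀ S : Set (Ultrafilter ℕ), (∀ p ∈ S, Nonprincipal p) →
        q ∉ S → Cardinal.mk S < bNum → ¬ LimitOf q S := by
    rintro ⟨L, hL, _, hall⟩ q hq S hnp hqS hS hlim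
    obtain ⟨p, _, hp2, _, hp4⟩ := (h1 q hq S hnp hqS hS hlim).2 L hL
    obtain ⟨r, hr, hrp⟩ := hall p hp2
    exact hp4 r hr hrp
  refine ⟨h1, h2, ?_, aleph0_lt_bNum⟩
  intro hfin W U T hW hU hT e hQ
  let p : ℕ → Ultrafilter ℕ := fun n => (U n).map (fun m => e (n, m))
  have hpn : ∀ n, Nonprincipal (p n) := by
    intro n k hk
    have hk' : {m | e (n, m) ∈ ({k} : Set ℕ)} ∈ U n := hk
    rcases Set.eq_empty_or_nonempty {m | e (n, m) ∈ ({k} : Set ℕ)} with h3 | ⟨m, hm⟩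
    · rw [h3] at hk'
      exact Ultrafilter.empty_notMem hk'
    · apply hU n m
      refine Filter.mem_of_superset hk' ?_
      intro m' hm'
      simp only [Set.mem_ofPred_eq, Set.mem_singleton_iff] at hm hm' ⊢
      have := e.injective (hm'.trans hm.symm)
      simpa using this
  have hmemT : ∀ s : Set ℕ, s ∈ T.map e ↔ {n | s ∈ p n} ∈ W := by
    intro s
    exact hT (e ⁻¹' s)
  have hcard : Cardinal.mk ({r | ∃ n, p n = r} \ {T.map e} : Set (Ultrafilter ℕ)) < bNum := by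
    refine lt_of_le_of_lt ?_ aleph0_lt_bNum
    apply Cardinal.le_aleph0_iff_set_countable.mpr
    exact (Set.countable_range p).mono Set.sdiff_subset
  have h3 := h2 hfin (T.map e) hQ ({r | ∃ n, p n = r} \ {T.map e}) (by
    rintro _ ⟨⟨n, rfl⟩, _⟩
    exact hpn n) (fun h => h.2 rfl) hcard
  unfold LimitOf at h3
  push Not at h3
  obtain ⟨X, hX, hXS⟩ := h3
  have h4 : {n | X ∈ p n} ∈ W := (hmemT X).1 hX
  have h5 : ∀ n, X ∈ p n → p n = T.map e := by
    intro n hn
    by_contra hne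
    exact hXS (p n) ⟨⟨n, rfl⟩, hne⟩ hn
  obtain ⟨n, hn⟩ := Ultrafilter.nonempty_of_mem h4
  apply hW n
  refine Filter.mem_of_superset h4 ?_
  intro k hk
  have h6 : p n = p k := (h5 n hn).trans (h5 k hk).symm
  have h7 : e '' {x | x.1 = n} ∈ p n := by
    show {m | e (n, m) ∈ e '' {x : ℕ × ℕ | x.1 = n}} ∈ U n
    refine Filter.mem_of_superset Filter.univ_mem ?_
    intro m _
    exact ⟨(n, m), rfl, rfl⟩
  rw [h6] at h7
  have h8 : {m | e (k, m) ∈ e '' {x : ℕ × ℕ | x.1 = n}} ∈ U k := h7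
  obtain ⟨m, hm⟩ := Ultrafilter.nonempty_of_mem h8
  obtain ⟨x, hx, hx2⟩ := hm
  have h9 := e.injective hx2
  rw [Set.mem_singleton_iff, ← hx.symm.symm, h9]
  
end Pool.Agent.Results.MP_04bc06_lc.WeakPPoints
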